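import Mathlib
import Pool.Agent.Helper30.CIR.Goals
import Pool.Agent.Helper57.RZ.T1

/-! # Project CIR, packet CE0: an invariant vector field is central -/

set_option autoImplicit false

open Set Filter Topology

open scoped ContDiff

namespace Pool.Agent.Helper44.CIR

open Pool.Agent.Helper56.RZ Pool.Agent.Helper30.CIR Pool.Agent.Helper57.RZ

theorem diffeo_iterate {K : ℕ} {M : Set (E K)} {f f' : E K → E K} (h : IsDiffeo 1 M f f') (n : ℕ) :
    IsDiffeo 1 M (f^[n]) (f'^[n]) := by
  induction n with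
  | zero =>
    exact ⟨fun x hx => hx, fun x hx => hx, fun x _ => rfl, fun x _ => rfl, contDiffOn_id,
      contDiffOn_id⟩
  | succ n ih =>
    refine ⟨?_, ?_, ?_, ?_, ?_, ?_⟩
    · rw [Function.iterate_succ']
      exact h.maps.comp ih.maps
    · rw [Function.iterate_succ']
      exact h.maps'.comp ih.maps'
    · intro x hx
      rw [Function.iterate_succ' f n, Function.iterate_succ f' n, Function.comp_apply,
        Function.comp_apply, h.left _ (ih.maps hx), ih.left x hx]
    · intro x hx
      rw [Function.iterate_succ f n, Function.iterate_succ' f' n, Function.comp_apply,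
        Function.comp_apply, h.right _ (ih.maps' hx), ih.right x hx]
    · rw [Function.iterate_succ']
      exact h.smooth.comp ih.smooth ih.maps
    · rw [Function.iterate_succ']
      exact h.smooth'.comp ih.smooth' ih.maps'

theorem der_comp {K : ℕ} {M : Set (E K)} {f g : E K → E K} {x : E K} (hx : x ∈ M)
    (hm : MapsTo g M M) (hg : ContDiffOn ℝ 1 g M) (hf : ContDiffOn ℝ 1 f M) :
    der M (f ∘ g) x = der M f (g x) * der M g x :=
  (t2 K M f g x hx).2.2.1 hm ((hg.differentiableOn (by simp)) x hx)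
    ((hf.differentiableOn (by simp)) (g x) (hm hx))

theorem der_iterate_succ {K : ℕ} {M : Set (E K)} {f f' : E K → E K} (h : IsDiffeo 1 M f f')
    {x : E K} (hx : x ∈ M) (n : ℕ) :
    der M (f^[n + 1]) x = der M f (f^[n] x) * der M (f^[n]) x := by
  rw [Function.iterate_succ']
  exact der_comp hx (diffeo_iterate h n).maps (diffeo_iterate h n).smooth h.smooth

theorem der_id {K : ℕ} {M : Set (E K)} {x : E K} (hx : x ∈ M) : der M id x = Pi M x :=
  (t2 K M id id x hx).2.2.2.1

theorem der_left {K : ℕ} {M : Set (E K)} {f f' : E K → E K} (h : IsDiffeo 1 M f f')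
    {x : E K} (hx : x ∈ M) : der M f' (f x) * der M f x = Pi M x := by
  rw [← der_comp hx h.maps h.smooth h.smooth', ← der_id hx]
  exact (t2 K M (f' ∘ f) id x hx).2.2.2.2 fun y hy => h.left y hy

theorem P_Pi {K : ℕ} {M : Set (E K)} {f f' : E K → E K} {P : Fin 3 → E K → End K}
    (hP : PartHyp M f f' P) {x : E K} (hx : x ∈ M) (i : Fin 3) :
    Pi M x * P i x = P i x ∧ P i x * Pi M x = P i x := by
  have h0 := fun i => (hP.proj i).2 x hx
  have h1 := hP.orth x hx
  rw [← (hP.sum x hx).1]
  fin_cases i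
  · constructor
    · simp only [add_mul]
      simp [h0, h1 1 0 (by decide), h1 2 0 (by decide)]
    · simp only [mul_add]
      simp [h0, h1 0 1 (by decide), h1 0 2 (by decide)]
  · constructor
    · simp only [add_mul]
      simp [h0, h1 0 1 (by decide), h1 2 1 (by decide)]
    · simp only [mul_add]
      simp [h0, h1 1 0 (by decide), h1 1 2 (by decide)]
  · constructor
    · simp only [add_mul]
      simp [h0, h1 0 2 (by decide), h1 1 2 (by decide)]
    · simp only [mul_add]
      simp [h0, h1 2 0 (by decide), h1 2 1 (by decide)]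

theorem inv_iterate {K : ℕ} {M : Set (E K)} {f f' : E K → E K} {P : Fin 3 → E K → End K}
    (h : IsDiffeo 1 M f f') (hP : PartHyp M f f' P) {x : E K} (hx : x ∈ M) (i : Fin 3) (n : ℕ) :
    der M (f^[n]) x * P i x = P i (f^[n] x) * der M (f^[n]) x := by
  induction n with
  | zero =>
    change der M id x * P i x = P i x * der M id x
    rw [der_id hx, (P_Pi hP hx i).1, (P_Pi hP hx i).2]
  | succ n ih =>
    have hn : f^[n] x ∈ M := (diffeo_iterate h n).maps hx
    rw [der_iterate_succ h hx, mul_assoc, ih, ← mul_assoc, hP.inv _ hn i, mul_assoc,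
      Function.iterate_succ_apply']

theorem X_iterate {K : ℕ} {M : Set (E K)} {f f' : E K → E K} {X : E K → E K}
    (h : IsDiffeo 1 M f f') (hX : ∀ x ∈ M, Pi M x (X x) = X x)
    (hf : ∀ x ∈ M, der M f x (X x) = X (f x)) {x : E K} (hx : x ∈ M) (n : ℕ) :
    der M (f^[n]) x (X x) = X (f^[n] x) := by
  induction n with
  | zero =>
    change der M id x (X x) = X x
    rw [der_id hx, hX x hx]
  | succ n ih =>
    have hn : f^[n] x ∈ M := (diffeo_iterate h n).maps hx
    rw [der_iterate_succ h hx, Function.iterate_succ_apply']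
    change der M f (f^[n] x) (der M (f^[n]) x (X x)) = _
    rw [ih, hf _ hn]

theorem gCE0 : StmtCE0 := by
  intro K M f f' P X hM h hP hXc hX hf x hx
  obtain ⟨n, hn, hineq⟩ := hP.ineq
  have hne : M.Nonempty := ⟨x, hx⟩
  have hD := diffeo_iterate h n
  have hcont : ∀ i, ContinuousOn (fun y => ‖P i y (X y)‖) M := fun i =>
    ((hP.proj i).1.clm_apply hXc).norm
  -- transport of the components
  have htr : ∀ i, ∀ y ∈ M, der M (f^[n]) y (P i y (X y)) = P i (f^[n] y) (X (f^[n] y)) := by
    intro i y hy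
    have h1 := DFunLike.congr_fun (inv_iterate h hP hy i n) (X y)
    change der M (f^[n]) y (P i y (X y)) = P i (f^[n] y) (der M (f^[n]) y (X y)) at h1
    rw [h1, X_iterate h hX hf hy]
  have hpp : ∀ i, ∀ y ∈ M, P i y (P i y (X y)) = P i y (X y) := by
    intro i y hy
    exact DFunLike.congr_fun ((hP.proj i).2 y hy) (X y)
  -- the unstable component vanishes
  have h2 : ∀ y ∈ M, P 2 y (X y) = 0 := by
    obtain ⟨x0, hx0, hmax⟩ := hM.exists_isMaxOn hne (hcont 2)
    have hx1 : f^[n] x0 ∈ M := hD.maps hx0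
    have hback : der M (f'^[n]) (f^[n] x0) (P 2 (f^[n] x0) (X (f^[n] x0))) = P 2 x0 (X x0) := by
      rw [← htr 2 x0 hx0]
      have h3 := DFunLike.congr_fun (der_left hD hx0) (P 2 x0 (X x0))
      change der M (f'^[n]) (f^[n] x0) (der M (f^[n]) x0 (P 2 x0 (X x0))) =
        Pi M x0 (P 2 x0 (X x0)) at h3
      rw [h3]
      exact DFunLike.congr_fun (P_Pi hP hx0 2).1 (X x0)
    have hz : P 2 x0 (X x0) = 0 := by
      by_cases h0 : P 2 (f^[n] x0) (X (f^[n] x0)) = 0
      · rw [← hback, h0, map_zero]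
      · exfalso
        have h4 := (hineq _ hx1).2.1 _ (hpp 2 _ hx1) h0
        rw [hback] at h4
        exact absurd h4 (not_lt.2 (hmax hx1))
    intro y hy
    have h5 : ‖P 2 y (X y)‖ ≤ ‖P 2 x0 (X x0)‖ := hmax hy
    rw [hz, norm_zero] at h5
    exact norm_le_zero_iff.1 h5
  -- the stable component vanishes
  have h0 : ∀ y ∈ M, P 0 y (X y) = 0 := by
    obtain ⟨y0, hy0, hmax⟩ := hM.exists_isMaxOn hne (hcont 0)
    have hx1 : f'^[n] y0 ∈ M := hD.maps' hy0
    have hy : f^[n] (f'^[n] y0) = y0 := hD.right y0 hy0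
    have h3 := htr 0 _ hx1
    rw [hy] at h3
    have hz : P 0 y0 (X y0) = 0 := by
      by_cases h0 : P 0 (f'^[n] y0) (X (f'^[n] y0)) = 0
      · rw [← h3, h0, map_zero]
      · exfalso
        have h4 := (hineq _ hx1).1 _ (hpp 0 _ hx1) h0
        rw [h3] at h4
        exact absurd h4 (not_lt.2 (hmax hx1))
    intro y hy
    have h5 : ‖P 0 y (X y)‖ ≤ ‖P 0 y0 (X y0)‖ := hmax hy
    rw [hz, norm_zero] at h5
    exact norm_le_zero_iff.1 h5
  have h6 := DFunLike.congr_fun (hP.sum x hx).1 (X x)
  change P 0 x (X x) + P 1 x (X x) + P 2 x (X x) = Pi M x (X x) at h6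
  rw [h0 x hx, h2 x hx, zero_add, add_zero, hX x hx] at h6
  exact h6

end Pool.Agent.Helper44.CIR
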